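import Pool.Agent.PRT.StmtsA

/-!
# Squad PRT, row FRB: free balls
-/

set_option autoImplicit false

namespace Pool.Agent.PRT.H50

open Set MeasureTheory

/-- there are no periodic points -/
theorem no_per (G : E ≃ₜ E) (w : E) (C : ℝ) (h : Hm G w C) (k : ℕ) (hk : 1 ≤ k) (z : E) :
    (G ^ k) z ≠ z := by
  intro hz
  have h1 : ∀ m : ℕ, (G ^ (k * m)) z = z := by
    intro m
    induction m with
    | zero => simp
    | succ m ih =>
      rw [Nat.mul_succ, pow_add]
      show (G ^ (k * m)) ((G ^ k) z) = z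
      rw [hz, ih]
  have hw : 0 < ‖w‖ := norm_pos_iff.mpr h.w0
  have hk0 : (1 : ℝ) ≤ (k : ℝ) := by exact_mod_cast hk
  obtain ⟨m, hm⟩ := exists_nat_gt (C / ‖w‖)
  have h2 := h.dev ((k * m : ℕ) : ℤ) z
  rw [zpow_natCast, h1 m, sub_self, zero_sub, norm_neg, norm_smul, Int.cast_natCast,
    Real.norm_of_nonneg (Nat.cast_nonneg _), Nat.cast_mul] at h2
  rw [div_lt_iff₀ hw] at hm
  have h3 : (m : ℝ) * ‖w‖ ≤ (k : ℝ) * m * ‖w‖ := by
    have : (m : ℝ) ≤ (k : ℝ) * m := le_mul_of_one_le_left (Nat.cast_nonneg _) hk0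
    exact mul_le_mul_of_nonneg_right this hw.le
  linarith

/-- **FRB** -/
theorem frb (hChd : ChdStmt) : FrbStmt := by
  intro G w C h z0 r hfree k hk z hz hGz
  have hne : (G ^ k) z - z ≠ 0 := sub_ne_zero.mpr (no_per G w C h k hk z)
  have hball : ∀ s ∈ Icc (0 : ℝ) 1, z + s • ((G ^ k) z - z) ∈ Metric.ball z0 r := fun s hs =>
    (convex_ball z0 r).add_smul_sub_mem hz hGz hs
  have h1 := hChd G w C h (fun s : ℝ => z + s • ((G ^ k) z - z)) (by fun_prop)
    (fun s _ t _ hst => smul_left_injective ℝ hne (add_left_cancel hst))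
    (fun s hs t ht hst => hfree _ (hball s hs) (hst ▸ hball t ht)) k hk 0
    (left_mem_Icc.mpr zero_le_one) 1 (right_mem_Icc.mpr zero_le_one)
  apply h1
  simp

end Pool.Agent.PRT.H50
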