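import Pool.Agent.PRT.StmtsD

/-!
# Squad PRT, row STR: area preserving coordinates
-/

set_option autoImplicit false

namespace Pool.Agent.PRT.H50

open Set MeasureTheory
open scoped ContDiff Nat

/-! ### constants of the form `a L^a` -/

/-- exponent of a product -/
def mulc (a b : ℕ) : ℕ := a * b + a + b

/-- exponent of a power -/
def powc (a m : ℕ) : ℕ := a ^ m + a * m

theorem p_nonneg {L : ℝ} (hL : 1 ≤ L) (a : ℕ) : 0 ≤ (a : ℝ) * L ^ a := by positivity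

theorem p_mono {L : ℝ} (hL : 1 ≤ L) {a b : ℕ} (h : a ≤ b) :
    (a : ℝ) * L ^ a ≤ (b : ℝ) * L ^ b :=
  mul_le_mul (by exact_mod_cast h) (pow_le_pow_right₀ hL h) (by positivity) (by positivity)

theorem p_one {L : ℝ} (hL : 1 ≤ L) {a : ℕ} (h : 1 ≤ a) : 1 ≤ (a : ℝ) * L ^ a := by
  have := p_mono hL h
  have h2 : ((1 : ℕ) : ℝ) * L ^ 1 = L := by simp
  rw [h2] at this
  linarith

theorem p_const {L : ℝ} (hL : 1 ≤ L) (a : ℕ) : (a : ℝ) ≤ (a : ℝ) * L ^ a :=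
  le_mul_of_one_le_right (Nat.cast_nonneg _) (one_le_pow₀ hL)

theorem p_mul {L : ℝ} (hL : 1 ≤ L) (a b : ℕ) :
    ((a : ℝ) * L ^ a) * ((b : ℝ) * L ^ b) ≤ (mulc a b : ℝ) * L ^ (mulc a b) := by
  have h1 : ((a : ℝ) * L ^ a) * ((b : ℝ) * L ^ b) = ((a * b : ℕ) : ℝ) * L ^ (a + b) := by
    push_cast
    rw [pow_add]
    ring
  rw [h1]
  refine mul_le_mul ?_ (pow_le_pow_right₀ hL ?_) (by positivity) (by positivity)
  · exact_mod_cast (by unfold mulc; omega : a * b ≤ mulc a b)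
  · unfold mulc
    omega

theorem p_pow {L : ℝ} (hL : 1 ≤ L) (a m : ℕ) :
    ((a : ℝ) * L ^ a) ^ m ≤ (powc a m : ℝ) * L ^ (powc a m) := by
  have h1 : ((a : ℝ) * L ^ a) ^ m = ((a ^ m : ℕ) : ℝ) * L ^ (a * m) := by
    push_cast
    rw [mul_pow, pow_mul]
  rw [h1]
  refine mul_le_mul ?_ (pow_le_pow_right₀ hL ?_) (by positivity) (by positivity)
  · exact_mod_cast (by unfold powc; omega : a ^ m ≤ powc a m)
  · unfold powc
    omega

theorem p_add {L : ℝ} (hL : 1 ≤ L) (a b : ℕ) :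
    (a : ℝ) * L ^ a + (b : ℝ) * L ^ b ≤ ((a + b : ℕ) : ℝ) * L ^ (a + b) := by
  have h1 : L ^ a ≤ L ^ (a + b) := pow_le_pow_right₀ hL (by omega)
  have h2 : L ^ b ≤ L ^ (a + b) := pow_le_pow_right₀ hL (by omega)
  push_cast
  rw [add_mul]
  exact add_le_add (mul_le_mul_of_nonneg_left h1 (Nat.cast_nonneg _))
    (mul_le_mul_of_nonneg_left h2 (Nat.cast_nonneg _))

/-! ### translations -/

theorem bd_tr {V : Type} [NormedAddCommGroup V] [NormedSpace ℝ V] {k : ℕ} {C : ℝ} {ψ : E → V}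
    (h : Bd k C ψ) (w : E) : Bd k C (fun z => ψ (z + w)) := by
  intro i hi z
  rw [iteratedFDeriv_comp_add_right]
  exact h i hi _

theorem bm_tr {V : Type} [NormedAddCommGroup V] [NormedSpace ℝ V] {k : ℕ} {C : ℝ} {ψ : E → V}
    (h : Bm k C ψ) (w : E) : Bm k C (fun z => ψ (z + w)) := by
  intro i h1 hi z
  rw [iteratedFDeriv_comp_add_right]
  exact h i h1 hi _

theorem tr_iter (w : E) (n : ℕ) (z : E) : (fun z : E => z + w)^[n] z = z + (n : ℝ) • w := by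
  induction n with
  | zero => simp
  | succ n ih =>
    rw [Function.iterate_succ_apply', ih]
    push_cast
    rw [add_smul, one_smul, add_assoc]

/-- a translation is a lift -/
theorem tr_lf (w : E) : Lf (fun z : E => z + w) w 0 := by
  refine ⟨by fun_prop, ⟨fun z => z - w, by fun_prop, fun z => by simp, fun z => by simp⟩, ?_, ?_, ?_⟩
  · intro a b z
    show z + iv a b + w = z + w + iv a b
    abel
  · intro z
    have h : fderiv ℝ (fun z : E => z + w) z = ContinuousLinearMap.id ℝ E := by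
      rw [fderiv_add_const]
      exact fderiv_fun_id
    rw [h]
    exact LinearMap.det_id
  · intro n z
    rw [tr_iter]
    simp

/-- the translated density -/
theorem dn_tr (hMsp : MspStmt) {ρ : E → ℝ} (h : Dn ρ) (w : E) : Dn (fun z => ρ (z + w)) := by
  refine ⟨h.sm.comp (by fun_prop), ?_, fun z => h.lb _, ?_⟩
  · intro a b z
    show ρ (z + iv a b + w) = ρ (z + w)
    have : z + iv a b + w = (z + w) + iv a b := by abel
    rw [this]
    exact h.per a b _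
  · have hc : Continuous ρ := h.sm.continuous
    have h1 := hMsp (fun z => z + w) w 0 (tr_lf w) (fun z => (ρ z, 0)) (by fun_prop) (by
      intro a b z
      show (ρ (z + iv a b), (0 : ℝ)) = (ρ z, 0)
      rw [h.per a b z])
    have hQ : IsCompact Q := isCompact_Icc.prod isCompact_Icc
    have h2 : IntegrableOn (fun z : E => ((ρ (z + w), 0) : E)) Q :=
      (Continuous.continuousOn (by fun_prop)).integrableOn_compact hQ
    have h3 : IntegrableOn (fun z : E => ((ρ z, 0) : E)) Q :=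
      (Continuous.continuousOn (by fun_prop)).integrableOn_compact hQ
    have h4 := congrArg Prod.fst h1
    rw [fst_integral h2, fst_integral h3] at h4
    exact h4.trans h.one

/-- **STR** -/
theorem str (hDfa : DfaStmt) (hInb : InbStmt) (hDif : DifStmt) (hMsp : MspStmt) (hKna : KnaStmt)
    (hKnb : KnbStmt) (hKnc : KncStmt) (hRho : RhoStmt) : StrStmt := by
  intro k
  obtain ⟨c1, hc1⟩ := hRho (k + 1)
  obtain ⟨c2, hc2⟩ := hKnc (k + 1)
  obtain ⟨c4, hc4⟩ := hInb k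
  obtain ⟨c5, hc5⟩ := hDfa k
  obtain ⟨a1, ha1⟩ : ∃ a1, a1 = c1 + 1 := ⟨_, rfl⟩
  obtain ⟨aW, haW⟩ : ∃ aW, aW = c4 + 1 := ⟨_, rfl⟩
  obtain ⟨a2, ha2⟩ : ∃ a2, a2 = mulc c2 (powc a1 c2) + 1 := ⟨_, rfl⟩
  obtain ⟨a3, ha3⟩ : ∃ a3, a3 = mulc a2 a1 := ⟨_, rfl⟩
  obtain ⟨a4, ha4⟩ : ∃ a4, a4 = mulc c4 (powc a2 c4) + 1 := ⟨_, rfl⟩
  obtain ⟨a5, ha5⟩ : ∃ a5, a5 = mulc (k !) (powc aW k) := ⟨_, rfl⟩
  obtain ⟨a6, ha6⟩ : ∃ a6, a6 = mulc (c5 * 2 ^ c5) (mulc a2 a5) := ⟨_, rfl⟩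
  obtain ⟨a8, ha8⟩ : ∃ a8, a8 = mulc (k !) (mulc (a6 + a3) (powc a4 k)) := ⟨_, rfl⟩
  refine ⟨a8 + a5 + c1, ?_⟩
  intro F U w C L δ hF hL hδ hsmall hU hUe hdet hUb hUF
  obtain ⟨W, hW, hWe, hWU, hUW⟩ := hDif U hU hUe fun z => by linarith [(hdet z).1]
  have hsm1 : (c1 : ℝ) * L ^ c1 * δ ≤ 1 :=
    (mul_le_mul_of_nonneg_right (p_mono hL (by omega)) hδ).trans hsmall
  have hsm5 : (a5 : ℝ) * L ^ a5 * δ ≤ 1 :=
    (mul_le_mul_of_nonneg_right (p_mono hL (by omega)) hδ).trans hsmall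
  obtain ⟨hDn, hρb, hρd⟩ := hc1 F U W w C L δ hF hL hδ hsm1 hU hW hUe hWe hWU hUW hdet hUb hUF
  obtain ⟨ρ, hρ⟩ : ∃ ρ : E → ℝ, ρ = fun y => (fderiv ℝ W y).det := ⟨_, rfl⟩
  rw [← hρ] at hDn hρb
  have hρd' : Bd (k + 1) (c1 * L ^ c1 * δ) (fun y => ρ (y + w) - ρ y) := by
    rw [hρ]
    exact hρd
  have hDnw := dn_tr hMsp hDn w
  obtain ⟨hKs, hKe, hKd⟩ := hKna ρ hDn
  obtain ⟨Ki, hKis, hKie, hKiK, hKKi⟩ := hDif (kn ρ) hKs hKe fun z => by
    rw [hKd]
    linarith [hDn.lb z]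
  -- bounds
  have hL1 : 1 ≤ (a1 : ℝ) * L ^ a1 := p_one hL (by omega)
  have hρb1 : Bd (k + 1) (a1 * L ^ a1) ρ := hρb.mono le_rfl (p_mono hL (by omega))
  have hρb2 : Bd (k + 1) (a1 * L ^ a1) (fun z => ρ (z + w)) := bd_tr hρb1 w
  obtain ⟨hK1, hK2⟩ := hc2 ρ (fun z => ρ (z + w)) (a1 * L ^ a1) (c1 * L ^ c1 * δ) hDn hDnw hL1
    hρb1 hρb2 hρd'
  have hA2 : (c2 : ℝ) * (a1 * L ^ a1) ^ c2 ≤ a2 * L ^ a2 := by
    calc (c2 : ℝ) * (a1 * L ^ a1) ^ c2
        ≤ ((c2 : ℝ) * L ^ c2) * ((powc a1 c2 : ℝ) * L ^ (powc a1 c2)) :=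
          mul_le_mul (p_const hL _) (p_pow hL _ _) (by positivity) (by positivity)
      _ ≤ (mulc c2 (powc a1 c2) : ℝ) * L ^ (mulc c2 (powc a1 c2)) := p_mul hL _ _
      _ ≤ a2 * L ^ a2 := p_mono hL (by omega)
  have hK1' : Bm (k + 1) (a2 * L ^ a2) (kn ρ) := hK1.mono le_rfl hA2
  have hK2' : Bd k (a3 * L ^ a3 * δ) (fun z => kn (fun z => ρ (z + w)) z - kn ρ z) := by
    refine hK2.mono (Nat.le_succ _) ?_
    calc (c2 : ℝ) * (a1 * L ^ a1) ^ c2 * (c1 * L ^ c1 * δ)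
        ≤ (a2 * L ^ a2) * (a1 * L ^ a1 * δ) := by
          refine mul_le_mul hA2 (mul_le_mul_of_nonneg_right (p_mono hL (by omega)) hδ)
            (by positivity) (by positivity)
      _ = ((a2 * L ^ a2) * (a1 * L ^ a1)) * δ := by ring
      _ ≤ a3 * L ^ a3 * δ := by
          rw [ha3]
          exact mul_le_mul_of_nonneg_right (p_mul hL _ _) hδ
  have hKi : Bm k (a4 * L ^ a4) Ki := by
    have h1 := hc4 (kn ρ) Ki (a2 * L ^ a2) hKs hKis hKiK hKKi (p_one hL (by omega))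
      (fun z => by rw [hKd]; exact hDn.lb z) (hK1'.mono (Nat.le_succ _) le_rfl)
    refine h1.mono le_rfl ?_
    calc (c4 : ℝ) * (a2 * L ^ a2) ^ c4
        ≤ ((c4 : ℝ) * L ^ c4) * ((powc a2 c4 : ℝ) * L ^ (powc a2 c4)) :=
          mul_le_mul (p_const hL _) (p_pow hL _ _) (by positivity) (by positivity)
      _ ≤ (mulc c4 (powc a2 c4) : ℝ) * L ^ (mulc c4 (powc a2 c4)) := p_mul hL _ _
      _ ≤ a4 * L ^ a4 := p_mono hL (by omega)
  have hWb : Bm k (aW * L ^ aW) W :=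
    (hc4 U W L hU hW hWU hUW hL (fun z => (hdet z).1) (hUb.mono (by omega) le_rfl)).mono le_rfl
      (p_mono hL (by omega))
  -- the error `E1`
  have hE0s : ContDiff ℝ ∞ (fun z => U (F z) - U z - w) :=
    ((hU.comp hF.sm).sub hU).sub contDiff_const
  obtain ⟨E1, hE1⟩ : ∃ E1 : E → E, E1 = fun y => U (F (W y)) - U (W y) - w := ⟨_, rfl⟩
  have hE1s : ContDiff ℝ ∞ E1 := by
    rw [hE1]
    exact hE0s.comp hW
  have hE1b : Bd k (a5 * L ^ a5 * δ) E1 := by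
    have h1 : Bd k (k ! * δ * (aW * L ^ aW) ^ k) E1 := by
      rw [hE1]
      exact (hUF.mono (by omega) le_rfl : Bd k δ (fun z => U (F z) - U z - w)).comp hWb
        (p_one hL (by omega)) hE0s hW
    refine h1.mono le_rfl ?_
    calc (k ! : ℝ) * δ * (aW * L ^ aW) ^ k = ((k ! : ℝ) * (aW * L ^ aW) ^ k) * δ := by ring
      _ ≤ ((((k ! : ℕ) : ℝ) * L ^ (k !)) * ((powc aW k : ℝ) * L ^ (powc aW k))) * δ := by
          refine mul_le_mul_of_nonneg_right ?_ hδ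
          exact mul_le_mul (p_const hL _) (p_pow hL _ _) (by positivity) (by positivity)
      _ ≤ a5 * L ^ a5 * δ := by
          rw [ha5]
          exact mul_le_mul_of_nonneg_right (p_mul hL _ _) hδ
  -- the first bracket
  have hKws : ContDiff ℝ ∞ (fun y => kn ρ (y + w)) := hKs.comp (by fun_prop)
  have hB1 : Bd k (a6 * L ^ a6 * δ) (fun y => kn ρ (y + E1 y + w) - kn ρ (y + w)) := by
    have h1 := hc5 E (fun y => kn ρ (y + w)) E1 (a2 * L ^ a2) (a5 * L ^ a5 * δ) hKws hE1s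
      (by positivity) (bm_tr hK1' w) hE1b
    refine h1.mono le_rfl ?_
    have h2 : (1 + (a5 : ℝ) * L ^ a5 * δ) ^ c5 ≤ 2 ^ c5 :=
      pow_le_pow_left₀ (by positivity) (by linarith) _
    calc (c5 : ℝ) * (a2 * L ^ a2) * (a5 * L ^ a5 * δ) * (1 + a5 * L ^ a5 * δ) ^ c5
        ≤ (c5 : ℝ) * (a2 * L ^ a2) * (a5 * L ^ a5 * δ) * 2 ^ c5 :=
          mul_le_mul_of_nonneg_left h2 (by positivity)
      _ = ((c5 * 2 ^ c5 : ℕ) : ℝ) * ((a2 * L ^ a2) * (a5 * L ^ a5)) * δ := by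
          push_cast
          ring
      _ ≤ (((c5 * 2 ^ c5 : ℕ) : ℝ) * L ^ (c5 * 2 ^ c5)) *
            ((mulc a2 a5 : ℝ) * L ^ (mulc a2 a5)) * δ := by
          refine mul_le_mul_of_nonneg_right ?_ hδ
          exact mul_le_mul (p_const hL _) (p_mul hL _ _) (by positivity) (by positivity)
      _ ≤ a6 * L ^ a6 * δ := by
          rw [ha6]
          exact mul_le_mul_of_nonneg_right (p_mul hL _ _) hδ
  have hB1s : ContDiff ℝ ∞ (fun y => kn ρ (y + E1 y + w) - kn ρ (y + w)) :=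
    (hKs.comp ((contDiff_id.add hE1s).add contDiff_const)).sub hKws
  have hB2s : ContDiff ℝ ∞ (fun z => kn (fun z => ρ (z + w)) z - kn ρ z) :=
    (hKna _ hDnw).1.sub hKs
  have hΨ := hB1.add hK2' hB1s hB2s
  have hΨs := hB1s.add hB2s
  have hfin := hΨ.comp hKi (p_one hL (by omega)) hΨs hKis
  have hval : ∀ z, kn ρ (U (F (W (Ki z)))) - z - w =
      (kn ρ (Ki z + E1 (Ki z) + w) - kn ρ (Ki z + w)) +
        (kn (fun z => ρ (z + w)) (Ki z) - kn ρ (Ki z)) := by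
    intro z
    have h1 : Ki z + E1 (Ki z) + w = U (F (W (Ki z))) := by
      rw [hE1]
      show Ki z + (U (F (W (Ki z))) - U (W (Ki z)) - w) + w = _
      rw [hUW]
      abel
    rw [h1, hKnb ρ w hDn, hKKi]
    abel
  refine ⟨fun z => kn ρ (U z), fun z => W (Ki z), hKs.comp hU, hW.comp hKis, ?_, ?_, ?_, ?_, ?_⟩
  · intro z
    show kn ρ (U (W (Ki z))) = z
    rw [hUW, hKKi]
  · intro z
    show W (Ki (kn ρ (U z))) = z
    rw [hKiK, hWU]
  · intro a b z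
    show W (Ki (z + iv a b)) = W (Ki z) + iv a b
    rw [hKie, hWe]
  · intro z
    have d1 : DifferentiableAt ℝ W (Ki z) := (hW.differentiable (by simp)).differentiableAt
    have d2 : DifferentiableAt ℝ Ki z := (hKis.differentiable (by simp)).differentiableAt
    have d3 : DifferentiableAt ℝ (kn ρ) (Ki z) := (hKs.differentiable (by simp)).differentiableAt
    have h1 : fderiv ℝ (fun z => W (Ki z)) z = (fderiv ℝ W (Ki z)).comp (fderiv ℝ Ki z) :=
      fderiv_comp z d1 d2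
    have h2 : fderiv ℝ (fun z => kn ρ (Ki z)) z =
        (fderiv ℝ (kn ρ) (Ki z)).comp (fderiv ℝ Ki z) := fderiv_comp z d3 d2
    have h3 : (fun z => kn ρ (Ki z)) = fun z => z := funext hKKi
    have h4 : fderiv ℝ (fun z : E => z) z = ContinuousLinearMap.id ℝ E := fderiv_fun_id
    rw [h3, h4] at h2
    have h5 : (ContinuousLinearMap.id ℝ E).det =
        (fderiv ℝ (kn ρ) (Ki z)).det * (fderiv ℝ Ki z).det := by
      rw [h2]
      exact LinearMap.det_comp _ _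
    have h6 : ((fderiv ℝ W (Ki z)).comp (fderiv ℝ Ki z)).det =
        (fderiv ℝ W (Ki z)).det * (fderiv ℝ Ki z).det := LinearMap.det_comp _ _
    have h7 : (ContinuousLinearMap.id ℝ E).det = 1 := LinearMap.det_id
    rw [h1, h6]
    rw [h7, hKd, hρ] at h5
    exact h5.symm
  · have h1 : (fun z => kn ρ (U (F (W (Ki z)))) - z - w) = fun z =>
        (kn ρ (Ki z + E1 (Ki z) + w) - kn ρ (Ki z + w)) +
          (kn (fun z => ρ (z + w)) (Ki z) - kn ρ (Ki z)) := funext hval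
    show Bd k _ (fun z => kn ρ (U (F (W (Ki z)))) - z - w)
    rw [h1]
    refine hfin.mono le_rfl ?_
    calc (k ! : ℝ) * (a6 * L ^ a6 * δ + a3 * L ^ a3 * δ) * (a4 * L ^ a4) ^ k
        = ((k ! : ℝ) * ((a6 * L ^ a6 + a3 * L ^ a3) * (a4 * L ^ a4) ^ k)) * δ := by ring
      _ ≤ ((((k ! : ℕ) : ℝ) * L ^ (k !)) * ((mulc (a6 + a3) (powc a4 k) : ℝ) *
            L ^ (mulc (a6 + a3) (powc a4 k)))) * δ := by
          refine mul_le_mul_of_nonneg_right ?_ hδ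
          refine mul_le_mul (p_const hL _) ?_ (by positivity) (by positivity)
          refine (mul_le_mul (p_add hL _ _) (p_pow hL _ _) (by positivity)
            (by positivity)).trans (p_mul hL _ _)
      _ ≤ (a8 * L ^ a8) * δ := by
          rw [ha8]
          exact mul_le_mul_of_nonneg_right (p_mul hL _ _) hδ
      _ ≤ ((a8 + a5 + c1 : ℕ) : ℝ) * L ^ (a8 + a5 + c1) * δ :=
          mul_le_mul_of_nonneg_right (p_mono hL (by omega)) hδ

end Pool.Agent.PRT.H50
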